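import Pool.Agent.W2helper9.OP.Stm

/-!
# Project OP, piece DENS
-/

set_option autoImplicit false

open IsDedekindDomain NumberField Filter

namespace Pool.Agent.W4helper65.OP

open Pool.Agent.K3h30.RS (PosProportion)
open Pool.Agent.W2helper9.OP

noncomputable section

variable {K : Type} [Field K] [NumberField K]

theorem finite_norm (X : ℕ) :
    {v : HeightOneSpectrum (𝓞 K) | Ideal.absNorm v.asIdeal ≤ X}.Finite := by
  refine Set.Finite.of_finite_image (f := fun w : HeightOneSpectrum (𝓞 K) => w.asIdeal)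
    ((Ideal.finite_setOfPred_absNorm_le X).subset ?_) (fun w _ w' _ h => HeightOneSpectrum.ext h)
  rintro _ ⟨w, hw, rfl⟩
  exact hw

theorem norm_nat (p : ℕ) : Ideal.absNorm (Ideal.span {(p : 𝓞 K)}) = p ^ Module.finrank ℚ K := by
  rw [Ideal.absNorm_span_singleton]
  have h : ((p : ℕ) : 𝓞 K) = algebraMap ℤ (𝓞 K) (p : ℤ) := by simp
  rw [h, Algebra.norm_algebraMap, RingOfIntegers.rank K, Int.natAbs_pow, Int.natAbs_natCast]

/-- the prime ideals over a prime number -/
theorem card_over {p : ℕ} (hp : p.Prime) (s : Finset (HeightOneSpectrum (𝓞 K)))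
    (hs : ∀ v ∈ s, (p : 𝓞 K) ∈ v.asIdeal) : s.card ≤ Module.finrank ℚ K := by
  classical
  have h1 : ∏ v ∈ s, v.asIdeal ∣ Ideal.span {(p : 𝓞 K)} := by
    have h2 : ∏ v ∈ s, v.asIdeal = ∏ P ∈ s.image (fun v => v.asIdeal), P := by
      rw [Finset.prod_image]
      intro v _ w _ h
      exact HeightOneSpectrum.ext h
    rw [h2]
    refine Finset.prod_primes_dvd _ ?_ ?_
    · intro P hP
      obtain ⟨v, _, rfl⟩ := Finset.mem_image.1 hP
      exact v.prime
    · intro P hP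
      obtain ⟨v, hv, rfl⟩ := Finset.mem_image.1 hP
      rw [Ideal.dvd_span_singleton]
      exact hs v hv
  have h3 : ∏ v ∈ s, Ideal.absNorm v.asIdeal ∣ p ^ Module.finrank ℚ K := by
    rw [← norm_nat (K := K) p, ← map_prod]
    exact Ideal.absNorm_dvd_absNorm_of_le (Ideal.dvd_iff_le.1 h1)
  have h4 : ∀ v ∈ s, p ≤ Ideal.absNorm v.asIdeal := by
    intro v hv
    have h5 : Ideal.absNorm v.asIdeal ∣ p ^ Module.finrank ℚ K := by
      rw [← norm_nat (K := K) p]
      exact Ideal.absNorm_dvd_absNorm_of_le ((Ideal.span_singleton_le_iff_mem _).2 (hs v hv))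
    have h6 : Ideal.absNorm v.asIdeal ≠ 1 := by
      rw [Ne, Ideal.absNorm_eq_one_iff]
      exact v.isPrime.ne_top
    obtain ⟨k, _, hk⟩ := (Nat.dvd_prime_pow hp).1 h5
    rw [hk]
    refine Nat.le_self_pow ?_ p
    rintro rfl
    exact h6 hk
  have h7 : p ^ s.card ≤ p ^ Module.finrank ℚ K := by
    calc p ^ s.card = ∏ _v ∈ s, p := by rw [Finset.prod_const]
      _ ≤ ∏ v ∈ s, Ideal.absNorm v.asIdeal := Finset.prod_le_prod' h4
      _ ≤ _ := Nat.le_of_dvd (pow_pos hp.pos _) h3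
  exact (Nat.pow_le_pow_iff_right hp.one_lt).1 h7

theorem exists_p (v : HeightOneSpectrum (𝓞 K)) : ∃ p : ℕ, p.Prime ∧
    p ≤ Ideal.absNorm v.asIdeal ∧ (p : 𝓞 K) ∈ v.asIdeal := by
  have h0 : Ideal.absNorm v.asIdeal ≠ 0 := by
    rw [Ne, Ideal.absNorm_eq_zero_iff]
    exact v.ne_bot
  have key : ∀ n : ℕ, n ≠ 0 → (n : 𝓞 K) ∈ v.asIdeal → ∃ p : ℕ, p.Prime ∧ p ≤ n ∧
      (p : 𝓞 K) ∈ v.asIdeal := by
    intro n
    induction n using Nat.recOnMul with
    | zero => exact fun h => absurd rfl h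
    | one =>
      intro _ h
      exfalso
      rw [Nat.cast_one] at h
      exact v.isPrime.ne_top ((Ideal.eq_top_iff_one _).2 h)
    | prime p hp => exact fun _ h => ⟨p, hp, le_rfl, h⟩
    | mul a b iha ihb =>
      intro hab h
      rw [Nat.cast_mul] at h
      have ha : a ≠ 0 := left_ne_zero_of_mul hab
      have hb : b ≠ 0 := right_ne_zero_of_mul hab
      rcases v.isPrime.mem_or_mem h with h | h
      · obtain ⟨p, hp, hle, hm⟩ := iha ha h
        exact ⟨p, hp, hle.trans (Nat.le_mul_of_pos_right _ (Nat.pos_of_ne_zero hb)), hm⟩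
      · obtain ⟨p, hp, hle, hm⟩ := ihb hb h
        exact ⟨p, hp, hle.trans (Nat.le_mul_of_pos_left _ (Nat.pos_of_ne_zero ha)), hm⟩
  exact key _ h0 (Ideal.absNorm_mem _)

theorem card_le (X : ℕ) :
    Nat.card {v : HeightOneSpectrum (𝓞 K) // Ideal.absNorm v.asIdeal ≤ X} ≤
      Module.finrank ℚ K * Nat.primeCounting X := by
  classical
  have e1 : Nat.card {v : HeightOneSpectrum (𝓞 K) // Ideal.absNorm v.asIdeal ≤ X} =
      (finite_norm (K := K) X).toFinset.card := by
    rw [← Set.ncard_eq_toFinset_card _ (finite_norm X)]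
    exact Nat.card_coe_set_eq _
  choose f hf1 hf2 hf3 using fun v : HeightOneSpectrum (𝓞 K) => exists_p v
  rw [e1]
  have h1 : ∀ v ∈ (finite_norm (K := K) X).toFinset, f v ∈ Nat.primesBelow (X + 1) := by
    intro v hv
    rw [Set.Finite.mem_toFinset] at hv
    rw [Nat.mem_primesBelow]
    exact ⟨Nat.lt_succ_of_le ((hf2 v).trans hv), hf1 v⟩
  have h2 := Finset.card_le_mul_card_image_of_maps_to h1 (Module.finrank ℚ K) (by
    intro p hp
    refine card_over (Nat.prime_of_mem_primesBelow hp) _ ?_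
    intro v hv
    rw [← (Finset.mem_filter.1 hv).2]
    exact hf3 v)
  rwa [Nat.primesBelow_card_eq_primeCounting', ← Nat.primeCounting] at h2

theorem inf_primes : Infinite (HeightOneSpectrum (𝓞 K)) := by
  have h1 : ∀ p : Nat.Primes, ∃ v : HeightOneSpectrum (𝓞 K), ((p : ℕ) : 𝓞 K) ∈ v.asIdeal := by
    intro p
    have hne : Ideal.span {((p : ℕ) : 𝓞 K)} ≠ ⊤ := by
      intro h
      have h2 := norm_nat (K := K) (p : ℕ)
      rw [h, Ideal.absNorm_top] at h2
      have h3 : Module.finrank ℚ K ≠ 0 := Module.finrank_pos.ne'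
      have h4 := Nat.one_lt_pow h3 p.2.one_lt
      omega
    obtain ⟨m, hm, hle⟩ := Ideal.exists_le_maximal _ hne
    have hpm : ((p : ℕ) : 𝓞 K) ∈ m := hle (Ideal.mem_span_singleton_self _)
    refine ⟨⟨m, hm.isPrime, ?_⟩, hpm⟩
    intro h0
    rw [h0, Ideal.mem_bot] at hpm
    exact p.2.ne_zero (by exact_mod_cast hpm)
  choose g hg using h1
  refine Infinite.of_injective g ?_
  intro p q hpq
  by_contra hne
  have hc : IsCoprime ((p : ℕ) : ℤ) ((q : ℕ) : ℤ) :=
    Nat.isCoprime_iff_coprime.2 ((Nat.coprime_primes p.2 q.2).2 fun h => hne (Subtype.ext h))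
  obtain ⟨a, b, hab⟩ := hc
  apply (g p).isPrime.ne_top
  rw [Ideal.eq_top_iff_one]
  have h3 : (a : 𝓞 K) * ((p : ℕ) : 𝓞 K) + b * ((q : ℕ) : 𝓞 K) = 1 := by
    exact_mod_cast congrArg (Int.cast (R := 𝓞 K)) hab
  rw [← h3]
  refine Ideal.add_mem _ (Ideal.mul_mem_left _ _ (hg p)) (Ideal.mul_mem_left _ _ ?_)
  rw [hpq]
  exact hg q

theorem p_DENS : P_DENS := by
  intro K _ _ T
  constructor
  · rintro ⟨c, hc, h⟩
    have hn : (0 : ℝ) < Module.finrank ℚ K := by
      have : 0 < Module.finrank ℚ K := Module.finrank_pos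
      exact_mod_cast this
    refine ⟨c / Module.finrank ℚ K, by positivity, ?_⟩
    filter_upwards [h] with X hX
    refine le_trans ?_ hX
    have h1 : (Nat.card {v : HeightOneSpectrum (𝓞 K) // Ideal.absNorm v.asIdeal ≤ X} : ℝ) ≤
        Module.finrank ℚ K * Nat.primeCounting X := by exact_mod_cast card_le X
    rw [div_mul_eq_mul_div, div_le_iff₀ hn]
    nlinarith
  · rintro ⟨c, hc, h⟩ hT
    have hT' : T.Finite := hT
    have := inf_primes (K := K)
    obtain ⟨k, hk⟩ := exists_nat_gt ((T.ncard : ℝ) / c)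
    obtain ⟨s, hs⟩ := Infinite.exists_subset_card_eq (HeightOneSpectrum (𝓞 K)) k
    have h2 : ∀ᶠ X : ℕ in atTop, (s.sup fun v => Ideal.absNorm v.asIdeal) ≤ X :=
      eventually_ge_atTop _
    obtain ⟨X, hX, hX2⟩ := (h.and h2).exists
    have h3 : k ≤ Nat.card {v : HeightOneSpectrum (𝓞 K) // Ideal.absNorm v.asIdeal ≤ X} := by
      rw [← hs, ← Set.ncard_coe_finset]
      refine Set.ncard_le_ncard (t := {v : HeightOneSpectrum (𝓞 K) |
        Ideal.absNorm v.asIdeal ≤ X}) ?_ (finite_norm X)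
      intro v hv
      exact (Finset.le_sup (f := fun v : HeightOneSpectrum (𝓞 K) => Ideal.absNorm v.asIdeal)
        (Finset.mem_coe.1 hv)).trans hX2
    have h4 : Nat.card {v : HeightOneSpectrum (𝓞 K) // v ∈ T ∧ Ideal.absNorm v.asIdeal ≤ X} ≤
        T.ncard :=
      Set.ncard_le_ncard (s := {v : HeightOneSpectrum (𝓞 K) |
        v ∈ T ∧ Ideal.absNorm v.asIdeal ≤ X}) (fun v hv => hv.1) hT'
    have h5 : (k : ℝ) ≤
        Nat.card {v : HeightOneSpectrum (𝓞 K) // Ideal.absNorm v.asIdeal ≤ X} := by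
      exact_mod_cast h3
    have h6 : (Nat.card {v : HeightOneSpectrum (𝓞 K) //
        v ∈ T ∧ Ideal.absNorm v.asIdeal ≤ X} : ℝ) ≤ T.ncard := by exact_mod_cast h4
    rw [div_lt_iff₀ hc] at hk
    nlinarith

end

end Pool.Agent.W4helper65.OP
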